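import Mathlib
import Pool.Agent.MP357.Main

set_option autoImplicit false

/-!
# Simple cocompact lattices in products of two trees are not left-orderable

The theorem below applies to every simple group acting properly (for instance freely) and
cocompactly, by factor-preserving automorphisms, on a product of two infinite locally finite
trees; in particular to all simple lattices constructed by Burger and Mozes.
-/

namespace Pool.Agent.Results.MP_357edd_al.SimpleLattices

/-- A group is left-orderable if it carries a total order invariant under left translations. -/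
def LeftOrderable (G : Type*) [Group G] : Prop :=
  ∃ _ : LinearOrder G, ∀ f g h : G, g < h → f * g < f * h

/-- `Γ` acts on the two graphs `T₁` and `T₂` by automorphisms, both graphs are infinite locally
finite trees, and the diagonal action on the vertex set `V₁ × V₂` of the product has finite
stabilisers and finitely many orbits: `Γ` is (acts as) a cocompact lattice in
`Aut(T₁) × Aut(T₂)`.  A free action has trivial, hence finite, stabilisers. -/
structure IsCocompactLattice (Γ : Type*) {V₁ V₂ : Type*} [Group Γ] [MulAction Γ V₁]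
    [MulAction Γ V₂] (T₁ : SimpleGraph V₁) (T₂ : SimpleGraph V₂) : Prop where
  tree₁ : T₁.IsTree
  tree₂ : T₂.IsTree
  infinite₁ : Infinite V₁
  infinite₂ : Infinite V₂
  locallyFinite₁ : ∀ x, (T₁.neighborSet x).Finite
  locallyFinite₂ : ∀ x, (T₂.neighborSet x).Finite
  map_adj₁ : ∀ (g : Γ) (x y : V₁), T₁.Adj x y → T₁.Adj (g • x) (g • y)
  map_adj₂ : ∀ (g : Γ) (x y : V₂), T₂.Adj x y → T₂.Adj (g • x) (g • y)
  finite_stabilizer : ∀ p : V₁ × V₂, Finite (MulAction.stabilizer Γ p)
  finite_orbits : Finite (MulAction.orbitRel.Quotient Γ (V₁ × V₂))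

/-- No simple cocompact lattice in a product of two trees is left-orderable. -/
theorem result {Γ V₁ V₂ : Type*} [Group Γ] [MulAction Γ V₁] [MulAction Γ V₂]
    (T₁ : SimpleGraph V₁) (T₂ : SimpleGraph V₂) (hlat : IsCocompactLattice Γ T₁ T₂)
    (hsimple : IsSimpleGroup Γ) : ¬ LeftOrderable Γ := by
  rintro ⟨hord, hinv⟩
  have hi₁ := hlat.infinite₁
  have hi₂ := hlat.infinite₂
  have hfo := hlat.finite_orbits
  have hgt : ∀ g : Γ, 1 < g → ∀ n : ℕ, 1 < g ^ (n + 1) := by
    intro g hg n
    induction n with
    | zero => simpa using hg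
    | succ n ih =>
      have h1 := hinv (g ^ (n + 1)) _ _ hg
      rw [mul_one, ← pow_succ] at h1
      exact ih.trans h1
  have htf : ∀ (g : Γ) (n : ℕ), 1 ≤ n → g ^ n = 1 → g = 1 := by
    intro g n hn hgn
    obtain ⟨m, rfl⟩ : ∃ m, n = m + 1 := ⟨n - 1, by omega⟩
    rcases lt_trichotomy g 1 with h | h | h
    · have h1 : 1 < g⁻¹ := by
        have := hinv g⁻¹ _ _ h
        simpa using this
      have h2 := hgt _ h1 m
      rw [inv_pow, hgn, inv_one] at h2
      exact absurd h2 (lt_irrefl _)
    · exact h
    · have h2 := hgt _ h m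
      rw [hgn] at h2
      exact absurd h2 (lt_irrefl _)
  have hfree : ∀ (g : Γ) (x : V₁) (w : V₂), g • x = x → g • w = w → g = 1 := by
    intro g x w hx hw
    have hfin := hlat.finite_stabilizer (x, w)
    have hg : g ∈ MulAction.stabilizer Γ (x, w) := by
      rw [MulAction.mem_stabilizer_iff, Prod.smul_mk, hx, hw]
    obtain ⟨n, hn, hgn⟩ := (isOfFinOrder_of_finite
      (⟨g, hg⟩ : MulAction.stabilizer Γ (x, w))).exists_pow_eq_one
    apply htf g n hn
    have := congrArg Subtype.val hgn
    simpa using this
  have hc₁ : Countable V₁ :=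
    Pool.Agent.MP357.countable_of_connected hlat.locallyFinite₁ hlat.tree₁.1
  have hc₂ : Countable V₂ :=
    Pool.Agent.MP357.countable_of_connected hlat.locallyFinite₂ hlat.tree₂.1
  have hcΓ : Countable Γ := by
    obtain ⟨x⟩ := hlat.tree₁.1.nonempty
    obtain ⟨w⟩ := hlat.tree₂.1.nonempty
    apply Function.Injective.countable (f := fun g : Γ => g • ((x, w) : V₁ × V₂))
    intro g h hgh
    exact Pool.Agent.MP357.free_cancel (Pool.Agent.MP357.free_prod hfree) hgh
  have hnt : Nontrivial Γ := hsimple.toNontrivial
  obtain ⟨ρ, hρ⟩ := Pool.Agent.MP357.exists_action_real Γ hinv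
  exact Pool.Agent.MP357.no_action hlat.tree₁ hlat.tree₂.1 hlat.locallyFinite₁
    hlat.locallyFinite₂ hlat.map_adj₁ hlat.map_adj₂ hfree htf ρ hρ

end Pool.Agent.Results.MP_357edd_al.SimpleLattices
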